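import Mathlib
import Pool.Agent.H640R2.PhaseMuC

/-!
# The variance bound for an operator on a finite dimensional complex Hilbert space
-/

set_option autoImplicit false

namespace Pool.Agent.V11277.BW

open ContinuousLinearMap Finset
open scoped InnerProductSpace


variable {H : Type} [NormedAddCommGroup H] [InnerProductSpace ℂ H]

theorem norm_add_smul_sq (a b : H) (t : ℝ) :
    ‖a + (t : ℂ) • b‖ ^ 2 = ‖a‖ ^ 2 + 2 * t * (⟪a, b⟫_ℂ).re + t ^ 2 * ‖b‖ ^ 2 := by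
  rw [norm_add_sq (𝕜 := ℂ), inner_smul_right, norm_smul]
  simp only [RCLike.re_to_complex, Complex.re_ofReal_mul, Complex.norm_real, Real.norm_eq_abs]
  rw [mul_pow, sq_abs]
  ring

theorem inner_expand (X : H →L[ℂ] H) (v w : H) (t : ℝ) :
    ⟪v + (t : ℂ) • w, X (v + (t : ℂ) • w)⟫_ℂ =
      ⟪v, X v⟫_ℂ + (t : ℂ) * (⟪v, X w⟫_ℂ + ⟪w, X v⟫_ℂ) + (t : ℂ) ^ 2 * ⟪w, X w⟫_ℂ := by
  rw [map_add, map_smul, inner_add_left, inner_add_right, inner_add_right, inner_smul_left,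
    inner_smul_left, inner_smul_right, inner_smul_right, Complex.conj_ofReal]
  ring

variable [FiniteDimensional ℂ H]

/-- the quadratic part for one vector -/
noncomputable def qf (X : H →L[ℂ] H) (v : H) : ℝ := (‖X v‖ ^ 2 + ‖adjoint X v‖ ^ 2) / 2

/-- the bilinear form belonging to `qf` -/
noncomputable def bf (X : H →L[ℂ] H) (v w : H) : ℝ :=
  ((⟪X v, X w⟫_ℂ).re + (⟪adjoint X v, adjoint X w⟫_ℂ).re) / 2

theorem qf_add (X : H →L[ℂ] H) (v w : H) (t : ℝ) :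
    qf X (v + (t : ℂ) • w) = qf X v + 2 * t * bf X v w + t ^ 2 * qf X w := by
  unfold qf bf
  rw [map_add, map_smul, map_add, map_smul, norm_add_smul_sq, norm_add_smul_sq]
  ring

theorem eq_zero_of_poly {a b c d : ℝ} (h : ∀ t : ℝ, 0 ≤ a * t + b * t ^ 2 + c * t ^ 3 + d * t ^ 4) :
    a = 0 := by
  by_contra ha
  set M := |b| + |c| + |d| + 1 with hM
  have hM1 : 1 ≤ M := by
    have h1 : 0 ≤ |b| + |c| + |d| := by positivity
    linarith
  have hMpos : 0 < M := by linarith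
  -- choose `t = - sign a * ε`
  have key : ∀ s : ℝ, |s| ≤ 1 → b * s ^ 2 + c * s ^ 3 + d * s ^ 4 ≤ M * s ^ 2 := by
    intro s hs
    have h1 : b * s ^ 2 ≤ |b| * s ^ 2 := mul_le_mul_of_nonneg_right (le_abs_self b) (sq_nonneg s)
    have h2 : c * s ^ 3 ≤ |c| * s ^ 2 := by
      have : c * s ^ 3 ≤ |c * s ^ 3| := le_abs_self _
      rw [abs_mul, abs_pow] at this
      refine this.trans (mul_le_mul_of_nonneg_left ?_ (abs_nonneg c))
      rw [← sq_abs s]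
      exact pow_le_pow_of_le_one (abs_nonneg s) hs (by norm_num)
    have h3 : d * s ^ 4 ≤ |d| * s ^ 2 := by
      have : d * s ^ 4 ≤ |d * s ^ 4| := le_abs_self _
      rw [abs_mul, abs_pow] at this
      refine this.trans (mul_le_mul_of_nonneg_left ?_ (abs_nonneg d))
      rw [← sq_abs s]
      exact pow_le_pow_of_le_one (abs_nonneg s) hs (by norm_num)
    have h4 : 0 ≤ s ^ 2 := sq_nonneg s
    nlinarith
  have habs : 0 < |a| := abs_pos.2 ha
  set ε := min 1 (|a| / (2 * M)) with hε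
  have hε0 : 0 < ε := lt_min one_pos (by positivity)
  have hε1 : ε ≤ 1 := min_le_left _ _
  have hε2 : ε * (2 * M) ≤ |a| := by
    have : ε ≤ |a| / (2 * M) := min_le_right _ _
    rwa [le_div_iff₀ (by positivity)] at this
  rcases lt_or_gt_of_ne ha with hneg | hpos
  · have h1 := h ε
    have h2 := key ε (by rwa [abs_of_pos hε0])
    rw [abs_of_neg hneg] at hε2
    nlinarith
  · have h1 := h (-ε)
    have h2 := key (-ε) (by rw [abs_neg, abs_of_pos hε0]; exact hε1)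
    rw [abs_of_pos hpos] at hε2
    nlinarith

variable {ι : Type} [Fintype ι]

/-- At a maximal family all the vectors are eigenvectors. -/
theorem critical (X : H →L[ℂ] H) (l : ℝ) (v : ι → H) (hv : ∑ i, ‖v i‖ ^ 2 = 1)
    (hz : ∑ i, ⟪v i, X (v i)⟫_ℂ = 0) (hl : ∑ i, qf X (v i) = l)
    (hmax : ∀ w : ι → H, (∑ i, qf X (w i)) * (∑ i, ‖w i‖ ^ 2) - ‖∑ i, ⟪w i, X (w i)⟫_ℂ‖ ^ 2 ≤
      l * (∑ i, ‖w i‖ ^ 2) ^ 2) (i : ι) (x : H) :
    bf X (v i) x = l * (⟪v i, x⟫_ℂ).re := by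
  classical
  -- the perturbation in the direction `x` at the place `i`
  set w : ι → H := Pi.single i x with hw
  have hwi : w i = x := by rw [hw, Pi.single_eq_same]
  have hwj : ∀ j, j ≠ i → w j = 0 := fun j hj => by rw [hw, Pi.single_eq_of_ne hj]
  have hs1 : ∑ j, (⟪v j, w j⟫_ℂ).re = (⟪v i, x⟫_ℂ).re := by
    rw [sum_eq_single i (fun j _ hj => by rw [hwj j hj, inner_zero_right]; rfl)
      (fun h => absurd (mem_univ i) h), hwi]
  have hs2 : ∑ j, bf X (v j) (w j) = bf X (v i) x := by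
    rw [sum_eq_single i (fun j _ hj => by rw [hwj j hj]; simp [bf])
      (fun h => absurd (mem_univ i) h), hwi]
  set r := (⟪v i, x⟫_ℂ).re with hr
  set q := bf X (v i) x with hq
  set n2 := ∑ j, ‖w j‖ ^ 2 with hn2
  set Q2 := ∑ j, qf X (w j) with hQ2
  set η := ∑ j, (⟪v j, X (w j)⟫_ℂ + ⟪w j, X (v j)⟫_ℂ) with hη
  set z2 := ∑ j, ⟪w j, X (w j)⟫_ℂ with hz2
  have hpoly : ∀ t : ℝ, 0 ≤ (2 * l * r - 2 * q) * t +
      (l * (4 * r ^ 2 + 2 * n2) - l * n2 - 4 * q * r - Q2 + ‖η‖ ^ 2) * t ^ 2 +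
      (l * (4 * r * n2) - 2 * q * n2 - 2 * Q2 * r + 2 * (η * (starRingEnd ℂ) z2).re) * t ^ 3 +
      (l * n2 ^ 2 - Q2 * n2 + ‖z2‖ ^ 2) * t ^ 4 := by
    intro t
    have h := hmax (fun j => v j + (t : ℂ) • w j)
    have e1 : ∑ j, ‖v j + (t : ℂ) • w j‖ ^ 2 = 1 + 2 * t * r + t ^ 2 * n2 := by
      simp_rw [norm_add_smul_sq]
      rw [sum_add_distrib, sum_add_distrib, hv, ← mul_sum, ← mul_sum, hs1]
    have e2 : ∑ j, qf X (v j + (t : ℂ) • w j) = l + 2 * t * q + t ^ 2 * Q2 := by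
      simp_rw [qf_add]
      rw [sum_add_distrib, sum_add_distrib, hl, ← mul_sum, ← mul_sum, hs2]
    have e3 : ∑ j, ⟪v j + (t : ℂ) • w j, X (v j + (t : ℂ) • w j)⟫_ℂ =
        (t : ℂ) * (η + (t : ℂ) * z2) := by
      simp_rw [inner_expand]
      rw [sum_add_distrib, sum_add_distrib, hz, ← mul_sum, ← mul_sum]
      ring
    rw [e1, e2, e3, norm_mul, mul_pow, Complex.norm_real, Real.norm_eq_abs, sq_abs] at h
    have e4 : ‖η + (t : ℂ) * z2‖ ^ 2 = ‖η‖ ^ 2 + 2 * t * (η * (starRingEnd ℂ) z2).re +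
        t ^ 2 * ‖z2‖ ^ 2 := by
      rw [← Complex.normSq_eq_norm_sq, ← Complex.normSq_eq_norm_sq, ← Complex.normSq_eq_norm_sq,
        Complex.normSq_add]
      simp only [map_mul, Complex.conj_ofReal, Complex.normSq_ofReal]
      have : (η * ((t : ℂ) * (starRingEnd ℂ) z2)).re = t * (η * (starRingEnd ℂ) z2).re := by
        rw [mul_left_comm, Complex.re_ofReal_mul]
      rw [this]
      ring
    rw [e4] at h
    nlinarith [h]
  have h0 := eq_zero_of_poly hpoly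
  linarith

/-- The eigenvector equation. -/
theorem critical' (X : H →L[ℂ] H) (l : ℝ) (v : ι → H) (hv : ∑ i, ‖v i‖ ^ 2 = 1)
    (hz : ∑ i, ⟪v i, X (v i)⟫_ℂ = 0) (hl : ∑ i, qf X (v i) = l)
    (hmax : ∀ w : ι → H, (∑ i, qf X (w i)) * (∑ i, ‖w i‖ ^ 2) - ‖∑ i, ⟪w i, X (w i)⟫_ℂ‖ ^ 2 ≤
      l * (∑ i, ‖w i‖ ^ 2) ^ 2) (i : ι) :
    adjoint X (X (v i)) + X (adjoint X (v i)) = ((2 * l : ℝ) : ℂ) • v i := by
  have h : ∀ x : H, (⟪adjoint X (X (v i)) + X (adjoint X (v i)) - ((2 * l : ℝ) : ℂ) • v i,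
      x⟫_ℂ).re = 0 := by
    intro x
    have h1 := critical X l v hv hz hl hmax i x
    unfold bf at h1
    rw [inner_sub_left, inner_add_left, adjoint_inner_left, inner_smul_left, Complex.conj_ofReal]
    have h2 : ⟪X (adjoint X (v i)), x⟫_ℂ = ⟪adjoint X (v i), adjoint X x⟫_ℂ := by
      rw [adjoint_inner_right]
    rw [h2, Complex.sub_re, Complex.add_re, Complex.re_ofReal_mul]
    linarith
  have h2 := h (adjoint X (X (v i)) + X (adjoint X (v i)) - ((2 * l : ℝ) : ℂ) • v i)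
  rw [← sub_eq_zero, ← norm_eq_zero, ← sq_eq_zero_iff, ← h2]
  exact (inner_self_eq_norm_sq (𝕜 := ℂ) _).symm

/-- The Toeplitz–Hausdorff theorem for a family of vectors of a subspace. -/
theorem exists_unit (X : H →L[ℂ] H) (W : Submodule ℂ H) (v : ι → H) (hvW : ∀ i, v i ∈ W)
    (hv : ∑ i, ‖v i‖ ^ 2 = 1) (hz : ∑ i, ⟪v i, X (v i)⟫_ℂ = 0) :
    ∃ u ∈ W, ‖u‖ = 1 ∧ ⟪u, X u⟫_ℂ = 0 := by
  classical
  let A : W →L[ℂ] W := (adjoint W.subtypeL).comp (X.comp W.subtypeL)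
  have hA : ∀ x : W, inner ℂ x (A x) = ⟪(x : H), X x⟫_ℂ := by
    intro x
    show inner ℂ x ((adjoint W.subtypeL) (X x)) = _
    rw [adjoint_inner_right]
    rfl
  have hconv := H640R2.PhaseMu.toeplitz_hausdorff A
  set S := {z : ℂ | ∃ x : W, ‖x‖ = 1 ∧ inner ℂ x (A x) = z} with hS
  have hmem : (0 : ℂ) ∈ S := by
    have h1 : ∑ i ∈ univ.filter (fun i => v i ≠ 0), (‖v i‖ ^ 2) •
        (((‖v i‖ ^ 2)⁻¹ : ℝ) : ℂ) * ⟪v i, X (v i)⟫_ℂ ∈ S := by
      have h2 : ∀ i ∈ univ.filter (fun i => v i ≠ 0), (((‖v i‖ ^ 2)⁻¹ : ℝ) : ℂ) * ⟪v i, X (v i)⟫_ℂ ∈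
          S := by
        intro i hi
        have hne : ‖v i‖ ≠ 0 := norm_ne_zero_iff.2 (mem_filter.1 hi).2
        refine ⟨((‖v i‖⁻¹ : ℝ) : ℂ) • ⟨v i, hvW i⟩, ?_, ?_⟩
        · rw [norm_smul, Complex.norm_real, Real.norm_of_nonneg (by positivity)]
          exact inv_mul_cancel₀ hne
        · rw [hA]
          show ⟪((‖v i‖⁻¹ : ℝ) : ℂ) • v i, X (((‖v i‖⁻¹ : ℝ) : ℂ) • v i)⟫_ℂ = _
          rw [map_smul, inner_smul_left, inner_smul_right, Complex.conj_ofReal, ← mul_assoc]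
          congr 1
          push_cast
          rw [← mul_inv, ← sq]
      have h3 := hconv.sum_mem (t := univ.filter (fun i => v i ≠ 0)) (w := fun i => ‖v i‖ ^ 2)
        (z := fun i => (((‖v i‖ ^ 2)⁻¹ : ℝ) : ℂ) * ⟪v i, X (v i)⟫_ℂ) (fun i _ => sq_nonneg _)
        (by
          rw [← hv]
          refine sum_subset (filter_subset _ _) fun i _ hi => ?_
          rw [mem_filter, not_and, not_not] at hi
          rw [hi (mem_univ i), norm_zero]
          norm_num) h2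
      simpa [smul_mul_assoc, mul_assoc] using h3
    have h4 : ∑ i ∈ univ.filter (fun i => v i ≠ 0), (‖v i‖ ^ 2) •
        (((‖v i‖ ^ 2)⁻¹ : ℝ) : ℂ) * ⟪v i, X (v i)⟫_ℂ = 0 := by
      rw [← hz]
      rw [← sum_subset (filter_subset (fun i => v i ≠ 0) univ) (f := fun i => ⟪v i, X (v i)⟫_ℂ)]
      · refine sum_congr rfl fun i hi => ?_
        have hne : ‖v i‖ ≠ 0 := norm_ne_zero_iff.2 (mem_filter.1 hi).2
        rw [Complex.real_smul, ← Complex.ofReal_mul, mul_inv_cancel₀ (by positivity),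
          Complex.ofReal_one, one_mul]
      · intro i _ hi
        rw [mem_filter, not_and, not_not] at hi
        rw [hi (mem_univ i), inner_zero_left]
    rwa [h4] at h1
  obtain ⟨x, hx, hx0⟩ := hmem
  exact ⟨x, x.2, hx, by rw [← hA]; exact hx0⟩

/-- The translation by a scalar. -/
theorem qf_sub (X : H →L[ℂ] H) (z : ℂ) (v : H) :
    qf (X - z • ContinuousLinearMap.id ℂ H) v =
      qf X v - 2 * ((starRingEnd ℂ) z * ⟪v, X v⟫_ℂ).re + ‖z‖ ^ 2 * ‖v‖ ^ 2 := by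
  unfold qf
  have h1 : (X - z • ContinuousLinearMap.id ℂ H) v = X v - z • v := rfl
  have h2 : adjoint (X - z • ContinuousLinearMap.id ℂ H) v = adjoint X v -
      (starRingEnd ℂ) z • v := by
    rw [map_sub, map_smulₛₗ]
    have : adjoint (ContinuousLinearMap.id ℂ H) = ContinuousLinearMap.id ℂ H := by
      ext x
      refine ext_inner_left ℂ fun y => ?_
      rw [adjoint_inner_right]
      rfl
    rw [this]
    rfl
  rw [h1, h2, norm_sub_sq (𝕜 := ℂ), norm_sub_sq (𝕜 := ℂ), norm_smul, norm_smul, inner_smul_right,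
    inner_smul_right, RCLike.norm_conj]
  have h3 : ⟪adjoint X v, v⟫_ℂ = ⟪v, X v⟫_ℂ := adjoint_inner_left X v v
  rw [h3]
  have h4 : (z * ⟪X v, v⟫_ℂ).re = ((starRingEnd ℂ) z * ⟪v, X v⟫_ℂ).re := by
    rw [← inner_conj_symm, ← Complex.conj_re, map_mul, Complex.conj_conj]
  simp only [RCLike.re_to_complex]
  rw [h4]
  ring

omit [FiniteDimensional ℂ H] in
theorem inner_sub' (X : H →L[ℂ] H) (z : ℂ) (v : H) :
    ⟪v, (X - z • ContinuousLinearMap.id ℂ H) v⟫_ℂ = ⟪v, X v⟫_ℂ - z * ((‖v‖ ^ 2 : ℝ) : ℂ) := by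
  have h1 : (X - z • ContinuousLinearMap.id ℂ H) v = X v - z • v := rfl
  rw [h1, inner_sub_right, inner_smul_right, inner_self_eq_norm_sq_to_K]
  push_cast
  rfl

/-- The function which is maximised. -/
noncomputable def F (X : H →L[ℂ] H) (v : ι → H) : ℝ :=
  ∑ i, qf X (v i) - ‖∑ i, ⟪v i, X (v i)⟫_ℂ‖ ^ 2

theorem F_sub (X : H →L[ℂ] H) (z : ℂ) (v : ι → H) (hv : ∑ i, ‖v i‖ ^ 2 = 1) :
    F (X - z • ContinuousLinearMap.id ℂ H) v = F X v := by
  unfold F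
  simp_rw [qf_sub, inner_sub']
  rw [sum_add_distrib, sum_sub_distrib, sum_sub_distrib, ← mul_sum, ← mul_sum, ← mul_sum, hv,
    ← Complex.ofReal_sum, hv, ← Complex.re_sum, ← mul_sum]
  set s := ∑ i, ⟪v i, X (v i)⟫_ℂ
  rw [← Complex.normSq_eq_norm_sq, ← Complex.normSq_eq_norm_sq, ← Complex.normSq_eq_norm_sq]
  simp only [Complex.ofReal_one, mul_one, Complex.normSq_sub]
  have : (s * (starRingEnd ℂ) z).re = ((starRingEnd ℂ) z * s).re := by rw [mul_comm]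
  rw [this]
  ring

theorem continuous_F (X : H →L[ℂ] H) : Continuous (F (ι := ι) X) := by
  unfold F qf
  fun_prop

/-- The variance bound. -/
theorem F_le (X : H →L[ℂ] H) (κ : ℝ)
    (hpure : ∀ u : H, ‖u‖ = 1 → qf X u - ‖⟪u, X u⟫_ℂ‖ ^ 2 ≤ κ) (v : ι → H)
    (hv : ∑ i, ‖v i‖ ^ 2 = 1) : F X v ≤ κ := by
  classical
  -- a maximal family
  have hcomp : IsCompact {w : ι → H | ∑ i, ‖w i‖ ^ 2 = 1} := by
    apply Metric.isCompact_of_isClosed_isBounded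
    · exact isClosed_eq (by fun_prop) continuous_const
    · rw [isBounded_iff_forall_norm_le]
      refine ⟨1, fun w hw => ?_⟩
      rw [pi_norm_le_iff_of_nonneg zero_le_one]
      intro i
      have h1 : ‖w i‖ ^ 2 ≤ 1 := by
        have hw' : ∑ i, ‖w i‖ ^ 2 = 1 := hw
        rw [← hw']
        exact single_le_sum (f := fun i => ‖w i‖ ^ 2) (fun i _ => sq_nonneg _) (mem_univ i)
      nlinarith [norm_nonneg (w i)]
  obtain ⟨v₀, hv₀, hmax⟩ := hcomp.exists_isMaxOn ⟨v, hv⟩ (continuous_F X).continuousOn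
  have hv₀' : ∑ i, ‖v₀ i‖ ^ 2 = 1 := hv₀
  refine (hmax hv).trans ?_
  set z := ∑ i, ⟪v₀ i, X (v₀ i)⟫_ℂ with hz
  set X' := X - z • ContinuousLinearMap.id ℂ H with hX'
  have hz' : ∑ i, ⟪v₀ i, X' (v₀ i)⟫_ℂ = 0 := by
    simp_rw [hX', inner_sub']
    rw [sum_sub_distrib, ← mul_sum, ← Complex.ofReal_sum, hv₀']
    simp [hz]
  set l := ∑ i, qf X' (v₀ i) with hl
  have hFl : F X v₀ = l := by
    rw [← F_sub X z v₀ hv₀', F, ← hX', hz']
    simp [hl]
  have hmax' : ∀ w : ι → H, (∑ i, qf X' (w i)) * (∑ i, ‖w i‖ ^ 2) -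
      ‖∑ i, ⟪w i, X' (w i)⟫_ℂ‖ ^ 2 ≤ l * (∑ i, ‖w i‖ ^ 2) ^ 2 := by
    intro w
    have hn : 0 ≤ ∑ i, ‖w i‖ ^ 2 := sum_nonneg fun i _ => sq_nonneg _
    rcases hn.eq_or_lt with h0 | h0
    · rw [← h0]
      have : 0 ≤ ‖∑ i, ⟪w i, X' (w i)⟫_ℂ‖ ^ 2 := sq_nonneg _
      nlinarith
    · set n := ∑ i, ‖w i‖ ^ 2 with hndef
      set c := (√n)⁻¹ with hc
      have hc2 : c ^ 2 = n⁻¹ := by rw [hc, inv_pow, Real.sq_sqrt h0.le]
      have hw' : ∑ i, ‖(c : ℂ) • w i‖ ^ 2 = 1 := by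
        simp_rw [norm_smul, mul_pow, Complex.norm_real, Real.norm_eq_abs, sq_abs]
        rw [← mul_sum, hc2, ← hndef, inv_mul_cancel₀ h0.ne']
      have h1 : F X (fun i => (c : ℂ) • w i) ≤ F X v₀ := hmax hw'
      rw [hFl, ← F_sub X z _ hw', ← hX', F] at h1
      have h2 : ∀ i, qf X' ((c : ℂ) • w i) = c ^ 2 * qf X' (w i) := by
        intro i
        unfold qf
        rw [map_smul, map_smul, norm_smul, norm_smul, Complex.norm_real, Real.norm_eq_abs, mul_pow,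
          mul_pow, sq_abs]
        ring
      have h3 : ∀ i, ⟪(c : ℂ) • w i, X' ((c : ℂ) • w i)⟫_ℂ = ((c ^ 2 : ℝ) : ℂ) * ⟪w i, X' (w i)⟫_ℂ := by
        intro i
        rw [map_smul, inner_smul_left, inner_smul_right, Complex.conj_ofReal]
        push_cast
        ring
      simp_rw [h2, h3] at h1
      rw [← mul_sum, ← mul_sum, norm_mul, mul_pow, Complex.norm_real, Real.norm_eq_abs, sq_abs,
        hc2] at h1
      have h4 : n ^ 2 * (n⁻¹ * ∑ i, qf X' (w i) - n⁻¹ ^ 2 * ‖∑ i, ⟪w i, X' (w i)⟫_ℂ‖ ^ 2) ≤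
          n ^ 2 * l := mul_le_mul_of_nonneg_left h1 (sq_nonneg n)
      have h5 : n ^ 2 * (n⁻¹ * ∑ i, qf X' (w i) - n⁻¹ ^ 2 * ‖∑ i, ⟪w i, X' (w i)⟫_ℂ‖ ^ 2) =
          (∑ i, qf X' (w i)) * n - ‖∑ i, ⟪w i, X' (w i)⟫_ℂ‖ ^ 2 := by
        field_simp
      rw [h5] at h4
      linarith
  have heig := critical' X' l v₀ hv₀' hz' hl.symm hmax'
  let T : H →L[ℂ] H := (adjoint X').comp X' + X'.comp (adjoint X') -
    ((2 * l : ℝ) : ℂ) • ContinuousLinearMap.id ℂ H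
  have hT : ∀ x, T x = adjoint X' (X' x) + X' (adjoint X' x) - ((2 * l : ℝ) : ℂ) • x := fun _ => rfl
  obtain ⟨u, huW, hu1, hu0⟩ := exists_unit X' (LinearMap.ker T.toLinearMap) v₀
    (fun i => by
      rw [LinearMap.mem_ker]
      show T (v₀ i) = 0
      rw [hT, heig i, sub_self]) hv₀' hz'
  have huT : T u = 0 := LinearMap.mem_ker.1 huW
  rw [hT, sub_eq_zero] at huT
  have hql : qf X' u = l := by
    unfold qf
    have h1 : ‖X' u‖ ^ 2 = (⟪adjoint X' (X' u), u⟫_ℂ).re := by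
      rw [adjoint_inner_left, ← inner_self_eq_norm_sq (𝕜 := ℂ)]
      rfl
    have h2 : ‖adjoint X' u‖ ^ 2 = (⟪X' (adjoint X' u), u⟫_ℂ).re := by
      rw [← inner_self_eq_norm_sq (𝕜 := ℂ), adjoint_inner_right X' (adjoint X' u) u]
      rfl
    rw [h1, h2, ← Complex.add_re, ← inner_add_left, huT, inner_smul_left, Complex.conj_ofReal,
      Complex.re_ofReal_mul]
    have h3 : (⟪u, u⟫_ℂ).re = 1 := by
      have := inner_self_eq_norm_sq (𝕜 := ℂ) u
      rw [hu1] at this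
      simpa using this
    rw [h3]
    ring
  have hone : ∑ _i : Unit, ‖u‖ ^ 2 = 1 := by simp [hu1]
  have h1 := F_sub (ι := Unit) X z (fun _ => u) hone
  have h2 : F X (fun _ : Unit => u) = qf X u - ‖⟪u, X u⟫_ℂ‖ ^ 2 := by simp [F]
  have h3 : F X' (fun _ : Unit => u) = l := by
    unfold F
    simp [hql, hu0]
  rw [hFl, ← h3, hX', h1, h2]
  exact hpure u hu1

end Pool.Agent.V11277.BW
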