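import Mathlib
import Pool.Agent.V11277.BW.Var

/-!
# The sharpened Böttcher–Wenzel inequality
-/

set_option autoImplicit false

namespace Pool.Agent.V11277.BW

open ContinuousLinearMap Finset
open scoped InnerProductSpace Matrix


section Pure

variable {H : Type} [NormedAddCommGroup H] [InnerProductSpace ℂ H] [FiniteDimensional ℂ H]

theorem pure_le (X : H →L[ℂ] H) (κ : ℝ) (h1 : ∀ u : H, ‖u‖ = 1 → ‖X u‖ ^ 2 ≤ κ)
    (h2 : ∀ u w : H, ‖u‖ = 1 → ‖w‖ = 1 → ⟪u, w⟫_ℂ = 0 → ‖X u‖ ^ 2 + ‖X w‖ ^ 2 ≤ κ) (u : H)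
    (hu : ‖u‖ = 1) : qf X u - ‖⟪u, X u⟫_ℂ‖ ^ 2 ≤ κ / 2 := by
  set a := adjoint X u with ha
  set c := ⟪u, a⟫_ℂ with hc
  set y := a - c • u with hy
  have huu : ⟪u, u⟫_ℂ = 1 := by rw [inner_self_eq_norm_sq_to_K, hu]; norm_num
  have huy : ⟪u, y⟫_ℂ = 0 := by
    rw [hy, inner_sub_right, inner_smul_right, huu, mul_one, ← hc, sub_self]
  have hcn : ‖c‖ = ‖⟪u, X u⟫_ℂ‖ := by
    rw [hc, ha, adjoint_inner_right, ← inner_conj_symm, RCLike.norm_conj]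
  have hyn : ‖y‖ ^ 2 = ‖a‖ ^ 2 - ‖c‖ ^ 2 := by
    rw [hy, norm_sub_sq (𝕜 := ℂ), inner_smul_right, norm_smul, hu, mul_one]
    have h3 : ⟪a, u⟫_ℂ = (starRingEnd ℂ) c := by rw [hc, inner_conj_symm]
    rw [h3, Complex.mul_conj, Complex.normSq_eq_norm_sq]
    simp only [RCLike.re_to_complex, Complex.ofReal_re]
    ring
  unfold qf
  rw [← ha, ← hcn]
  by_cases hy0 : y = 0
  · have h4 := h1 u hu
    rw [hy0, norm_zero] at hyn
    nlinarith [sq_nonneg ‖c‖]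
  · have hy1 : ‖y‖ ≠ 0 := norm_ne_zero_iff.2 hy0
    set w : H := ((‖y‖⁻¹ : ℝ) : ℂ) • y with hw
    have hw1 : ‖w‖ = 1 := by
      rw [hw, norm_smul, Complex.norm_real, Real.norm_of_nonneg (by positivity)]
      exact inv_mul_cancel₀ hy1
    have huw : ⟪u, w⟫_ℂ = 0 := by rw [hw, inner_smul_right, huy, mul_zero]
    have hwu : ⟪w, u⟫_ℂ = 0 := by rw [← inner_conj_symm, huw, map_zero]
    have h3 : (‖y‖ : ℂ) = ⟪w, y⟫_ℂ := by
      have hyc : ((‖y‖ : ℝ) : ℂ) ≠ 0 := by exact_mod_cast hy1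
      rw [hw, inner_smul_left, inner_self_eq_norm_sq_to_K, Complex.conj_ofReal]
      show ((‖y‖ : ℝ) : ℂ) = ((‖y‖⁻¹ : ℝ) : ℂ) * ((‖y‖ : ℝ) : ℂ) ^ 2
      push_cast
      field_simp
    have h4 : ⟪w, y⟫_ℂ = ⟪X w, u⟫_ℂ := by
      rw [hy, inner_sub_right, inner_smul_right, hwu, mul_zero, sub_zero, ha, adjoint_inner_right]
    have h5 : ‖y‖ ≤ ‖X w‖ := by
      have h6 := norm_inner_le_norm (𝕜 := ℂ) (X w) u
      rw [← h4, ← h3, hu, mul_one, Complex.norm_real, norm_norm] at h6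
      exact h6
    have h6 := h2 u w hu hw1 huw
    nlinarith [norm_nonneg y, norm_nonneg (X w), sq_nonneg ‖c‖]

end Pure

section Mat

/-- The square of the Frobenius norm. -/
noncomputable def fro2 {m n : Type} [Fintype m] [Fintype n] (Z : Matrix m n ℂ) : ℝ :=
  ∑ i, ∑ j, ‖Z i j‖ ^ 2

variable {m n : Type} [Fintype m] [Fintype n]

theorem fro2_nonneg (Z : Matrix m n ℂ) : 0 ≤ fro2 Z :=
  sum_nonneg fun _ _ => sum_nonneg fun _ _ => sq_nonneg _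

theorem trace_eq_sum (Y Z : Matrix m n ℂ) :
    (Yᴴ * Z).trace = ∑ j, ∑ i, (starRingEnd ℂ) (Y i j) * Z i j := by
  simp [Matrix.trace, Matrix.mul_apply]

theorem trace_eq_fro2 (Z : Matrix m n ℂ) : (Zᴴ * Z).trace = (fro2 Z : ℂ) := by
  rw [trace_eq_sum, fro2, sum_comm]
  push_cast
  refine sum_congr rfl fun i _ => sum_congr rfl fun j _ => ?_
  rw [mul_comm, Complex.mul_conj, Complex.normSq_eq_norm_sq]
  push_cast
  rfl

theorem fro2_conjTranspose (Z : Matrix m n ℂ) : fro2 Zᴴ = fro2 Z := by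
  unfold fro2
  rw [sum_comm]
  simp [Matrix.conjTranspose_apply]

/-- The columns. -/
noncomputable def colv (Z : Matrix m n ℂ) (j : n) : EuclideanSpace ℂ m :=
  WithLp.toLp 2 (fun i => Z i j)

theorem sum_colv (Z : Matrix m n ℂ) : ∑ j, ‖colv Z j‖ ^ 2 = fro2 Z := by
  unfold fro2
  rw [sum_comm]
  refine sum_congr rfl fun j _ => ?_
  rw [EuclideanSpace.norm_sq_eq]
  rfl

theorem sum_inner_colv (Y Z : Matrix m n ℂ) : ∑ j, ⟪colv Y j, colv Z j⟫_ℂ = (Yᴴ * Z).trace := by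
  rw [trace_eq_sum]
  refine sum_congr rfl fun j _ => ?_
  rw [PiLp.inner_apply]
  refine sum_congr rfl fun i _ => ?_
  simp [colv, mul_comm]

theorem cauchy (Y Z : Matrix m n ℂ) : ‖(Yᴴ * Z).trace‖ ^ 2 ≤ fro2 Y * fro2 Z := by
  have h1 : ∀ W : Matrix m n ℂ, ‖(WithLp.toLp 2 (fun q : m × n => W q.1 q.2) :
      EuclideanSpace ℂ (m × n))‖ ^ 2 = fro2 W := by
    intro W
    rw [EuclideanSpace.norm_sq_eq, Fintype.sum_prod_type]
    rfl
  have h2 : ⟪(WithLp.toLp 2 (fun q : m × n => Y q.1 q.2) : EuclideanSpace ℂ (m × n)),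
      (WithLp.toLp 2 (fun q : m × n => Z q.1 q.2) : EuclideanSpace ℂ (m × n))⟫_ℂ =
      (Yᴴ * Z).trace := by
    rw [trace_eq_sum, PiLp.inner_apply, Fintype.sum_prod_type, sum_comm]
    refine sum_congr rfl fun j _ => sum_congr rfl fun i _ => ?_
    simp [mul_comm]
  have h3 := norm_inner_le_norm (𝕜 := ℂ)
    (WithLp.toLp 2 (fun q : m × n => Y q.1 q.2) : EuclideanSpace ℂ (m × n))
    (WithLp.toLp 2 (fun q : m × n => Z q.1 q.2) : EuclideanSpace ℂ (m × n))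
  rw [h2] at h3
  have h4 := pow_le_pow_left₀ (norm_nonneg _) h3 2
  rwa [mul_pow, h1, h1] at h4

end Mat

section Main

variable {ι : Type} [Fintype ι] [DecidableEq ι]

theorem clm_colv {n : Type} [Fintype n] (X : Matrix ι ι ℂ) (Y : Matrix ι n ℂ) (j : n) :
    Matrix.toEuclideanCLM (𝕜 := ℂ) (n := ι) X (colv Y j) = colv (X * Y) j := by
  ext i
  simp [colv, Matrix.mulVec, dotProduct, Matrix.mul_apply]

theorem adjoint_clm (X : Matrix ι ι ℂ) :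
    adjoint (Matrix.toEuclideanCLM (𝕜 := ℂ) (n := ι) X) =
      Matrix.toEuclideanCLM (𝕜 := ℂ) (n := ι) Xᴴ := by
  rw [← Matrix.star_eq_conjTranspose, map_star]
  rfl

omit [DecidableEq ι] in
theorem identity (X Y : Matrix ι ι ℂ) :
    fro2 (X * Y - Y * X) + fro2 (Xᴴ * Y + Y * Xᴴ) =
      fro2 (X * Y) + fro2 (Xᴴ * Y) + fro2 (X * Yᴴ) + fro2 (Xᴴ * Yᴴ) := by
  have e1 : fro2 (X * Yᴴ) = fro2 (Y * Xᴴ) := by
    rw [← fro2_conjTranspose]; simp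
  have e2 : fro2 (Xᴴ * Yᴴ) = fro2 (Y * X) := by
    rw [← fro2_conjTranspose]; simp
  rw [e1, e2]
  have key : ((fro2 (X * Y - Y * X) + fro2 (Xᴴ * Y + Y * Xᴴ) : ℝ) : ℂ) =
      ((fro2 (X * Y) + fro2 (Xᴴ * Y) + fro2 (Y * Xᴴ) + fro2 (Y * X) : ℝ) : ℂ) := by
    push_cast
    rw [← trace_eq_fro2, ← trace_eq_fro2, ← trace_eq_fro2, ← trace_eq_fro2, ← trace_eq_fro2,
      ← trace_eq_fro2]
    simp only [Matrix.conjTranspose_sub, Matrix.conjTranspose_add, Matrix.conjTranspose_mul,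
      Matrix.conjTranspose_conjTranspose, Matrix.sub_mul, Matrix.mul_sub, Matrix.add_mul,
      Matrix.mul_add, Matrix.trace_add, Matrix.trace_sub]
    have t1 : (Yᴴ * X * (Y * Xᴴ)).trace = (Xᴴ * Yᴴ * (X * Y)).trace := by
      rw [← Matrix.mul_assoc, Matrix.trace_mul_comm, Matrix.mul_assoc, Matrix.mul_assoc]
    have t2 : (X * Yᴴ * (Xᴴ * Y)).trace = (Yᴴ * Xᴴ * (Y * X)).trace := by
      rw [Matrix.mul_assoc, Matrix.trace_mul_comm]
      simp only [Matrix.mul_assoc]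
    rw [t1, t2]
    ring
  exact_mod_cast key

/-- The sharpened Böttcher–Wenzel inequality. -/
theorem bw (X Y : Matrix ι ι ℂ) (κ : ℝ)
    (h1 : ∀ u : EuclideanSpace ℂ ι, ‖u‖ = 1 →
      ‖Matrix.toEuclideanCLM (𝕜 := ℂ) (n := ι) X u‖ ^ 2 ≤ κ)
    (h2 : ∀ u w : EuclideanSpace ℂ ι, ‖u‖ = 1 → ‖w‖ = 1 → ⟪u, w⟫_ℂ = 0 →
      ‖Matrix.toEuclideanCLM (𝕜 := ℂ) (n := ι) X u‖ ^ 2 +
        ‖Matrix.toEuclideanCLM (𝕜 := ℂ) (n := ι) X w‖ ^ 2 ≤ κ) :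
    fro2 (X * Y - Y * X) ≤ 2 * κ * fro2 Y := by
  rcases (fro2_nonneg Y).eq_or_lt with hy | hy
  · have hY : Y = 0 := by
      ext i j
      unfold fro2 at hy
      have h3 := (sum_eq_zero_iff_of_nonneg (fun i _ => sum_nonneg fun j _ => sq_nonneg _)).1
        hy.symm i (mem_univ i)
      have h4 := (sum_eq_zero_iff_of_nonneg (fun j _ => sq_nonneg _)).1 h3 j (mem_univ j)
      simpa using h4
    subst hY
    simp [fro2]
  set y := fro2 Y with hydef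
  set XL := Matrix.toEuclideanCLM (𝕜 := ℂ) (n := ι) X with hXL
  set c : ℝ := (√(2 * y))⁻¹ with hc
  have hc2 : c ^ 2 = (2 * y)⁻¹ := by rw [hc, inv_pow, Real.sq_sqrt (by positivity)]
  let v : ι ⊕ ι → EuclideanSpace ℂ ι := Sum.elim (fun j => (c : ℂ) • colv Y j)
    (fun j => (c : ℂ) • colv Yᴴ j)
  have hsm : ∀ z : EuclideanSpace ℂ ι, ‖(c : ℂ) • z‖ ^ 2 = c ^ 2 * ‖z‖ ^ 2 := by
    intro z
    rw [norm_smul, mul_pow, Complex.norm_real, Real.norm_eq_abs, sq_abs]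
  have hv : ∑ i, ‖v i‖ ^ 2 = 1 := by
    rw [Fintype.sum_sum_type]
    simp only [v, Sum.elim_inl, Sum.elim_inr, hsm]
    rw [← mul_sum, ← mul_sum, sum_colv, sum_colv, fro2_conjTranspose, ← hydef, hc2]
    field_simp
    norm_num
  have hF := F_le XL (κ / 2) (pure_le XL κ h1 h2) v hv
  have hqf : ∀ z : EuclideanSpace ℂ ι, qf XL ((c : ℂ) • z) = c ^ 2 * qf XL z := by
    intro z
    unfold qf
    rw [map_smul, map_smul, hsm, hsm]
    ring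
  have hin : ∀ z : EuclideanSpace ℂ ι, ⟪(c : ℂ) • z, XL ((c : ℂ) • z)⟫_ℂ =
      ((c ^ 2 : ℝ) : ℂ) * ⟪z, XL z⟫_ℂ := by
    intro z
    rw [map_smul, inner_smul_left, inner_smul_right, Complex.conj_ofReal]
    push_cast
    ring
  have hq : ∀ Z : Matrix ι ι ℂ, ∑ j, qf XL (colv Z j) = (fro2 (X * Z) + fro2 (Xᴴ * Z)) / 2 := by
    intro Z
    unfold qf
    rw [← sum_div, sum_add_distrib, hXL, adjoint_clm]
    simp_rw [clm_colv]
    rw [sum_colv, sum_colv]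
  have hi : ∀ Z : Matrix ι ι ℂ, ∑ j, ⟪colv Z j, XL (colv Z j)⟫_ℂ = (Zᴴ * (X * Z)).trace := by
    intro Z
    rw [hXL]
    simp_rw [clm_colv]
    rw [sum_inner_colv]
  unfold F at hF
  rw [Fintype.sum_sum_type, Fintype.sum_sum_type] at hF
  simp only [v, Sum.elim_inl, Sum.elim_inr, hqf, hin] at hF
  rw [← mul_sum, ← mul_sum, ← mul_sum, ← mul_sum, hq, hq, hi, hi, Matrix.conjTranspose_conjTranspose,
    ← mul_add (((c ^ 2 : ℝ) : ℂ))] at hF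
  set t := (Yᴴ * (X * Y)).trace + (Y * (X * Yᴴ)).trace with ht
  have htc : (Yᴴ * (Xᴴ * Y + Y * Xᴴ)).trace = (starRingEnd ℂ) t := by
    rw [ht, map_add, starRingEnd_apply, starRingEnd_apply, ← Matrix.trace_conjTranspose,
      ← Matrix.trace_conjTranspose]
    simp only [Matrix.conjTranspose_mul, Matrix.conjTranspose_conjTranspose, Matrix.mul_add,
      Matrix.trace_add]
    congr 1
    · rw [Matrix.mul_assoc]
    · rw [Matrix.trace_mul_comm]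
  have hcs := cauchy Y (Xᴴ * Y + Y * Xᴴ)
  rw [htc, RCLike.norm_conj] at hcs
  have hid := identity X Y
  rw [norm_mul, mul_pow, Complex.norm_real, Real.norm_eq_abs, sq_abs, hc2] at hF
  have h3 : (2 * y)⁻¹ * ((fro2 (X * Y) + fro2 (Xᴴ * Y)) / 2) +
      (2 * y)⁻¹ * ((fro2 (X * Yᴴ) + fro2 (Xᴴ * Yᴴ)) / 2) =
      (4 * y)⁻¹ * (fro2 (X * Y - Y * X) + fro2 (Xᴴ * Y + Y * Xᴴ)) := by
    rw [hid]
    field_simp
    ring
  rw [h3] at hF
  have h4 : ((2 * y)⁻¹) ^ 2 * ‖t‖ ^ 2 ≤ (4 * y)⁻¹ * fro2 (Xᴴ * Y + Y * Xᴴ) := by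
    calc ((2 * y)⁻¹) ^ 2 * ‖t‖ ^ 2 ≤ ((2 * y)⁻¹) ^ 2 * (y * fro2 (Xᴴ * Y + Y * Xᴴ)) :=
          mul_le_mul_of_nonneg_left hcs (sq_nonneg _)
      _ = _ := by field_simp; ring
  have h5 : (4 * y)⁻¹ * fro2 (X * Y - Y * X) ≤ κ / 2 := by
    rw [mul_add] at hF
    linarith
  have h6 : fro2 (X * Y - Y * X) ≤ κ / 2 * (4 * y) := by
    rw [inv_mul_eq_div, div_le_iff₀ (by positivity)] at h5
    exact h5
  linarith

end Main

end Pool.Agent.V11277.BW
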